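import Pool.Agent.Helper64.BKA.Core

/-!
# Totally real solvable extensions with prescribed local behaviour: definitions and basic facts

`F` is a number field. All extensions are given by open subgroups of `Gal F`.
Proofs of the modules: /team-store/bks_blueprint.md   [helper64]
-/

set_option autoImplicit false

open NumberField
open scoped Classical

namespace BKS

open BKA (Gal Zb Pl q Over Congr)

variable {F : Type} [Field F]

/-- `g 𝔓 = 𝔓'` -/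
def Tr (g : Gal F) (𝔓 𝔓' : Ideal (Zb F)) : Prop :=
  ∀ x y : Zb F, (y : AlgebraicClosure F) = g (x : AlgebraicClosure F) → (x ∈ 𝔓 ↔ y ∈ 𝔓')

/-- the image of an algebraic integer -/
noncomputable def img (g : Gal F) (x : Zb F) : Zb F :=
  ⟨g (x : AlgebraicClosure F), x.2.map g⟩

theorem img_val (g : Gal F) (x : Zb F) :
    ((img g x : Zb F) : AlgebraicClosure F) = g (x : AlgebraicClosure F) := rfl

theorem Tr.one (𝔓 : Ideal (Zb F)) : Tr 1 𝔓 𝔓 := by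
  intro x y h
  have : y = x := Subtype.ext h
  rw [this]

theorem Tr.inv {g : Gal F} {𝔓 𝔓' : Ideal (Zb F)} (h : Tr g 𝔓 𝔓') : Tr g⁻¹ 𝔓' 𝔓 := by
  intro x y hxy
  refine (h y x ?_).symm
  rw [hxy]
  exact (g.apply_symm_apply _).symm

theorem Tr.mul {g h : Gal F} {𝔓 𝔓' 𝔓'' : Ideal (Zb F)} (h1 : Tr g 𝔓 𝔓') (h2 : Tr h 𝔓' 𝔓'') :
    Tr (h * g) 𝔓 𝔓'' := by
  intro x y hxy
  exact (h1 x (img g x) rfl).trans (h2 (img g x) y hxy)

theorem Tr.unique {g : Gal F} {𝔓 𝔓' 𝔓'' : Ideal (Zb F)} (h1 : Tr g 𝔓 𝔓') (h2 : Tr g 𝔓 𝔓'') :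
    𝔓' = 𝔓'' := by
  ext y
  have h3 : (y : AlgebraicClosure F) = g ((img g⁻¹ y : Zb F) : AlgebraicClosure F) :=
    (g.apply_symm_apply _).symm
  exact (h1 _ y h3).symm.trans (h2 _ y h3)

/-- the image of an ideal exists -/
theorem Tr.exists (g : Gal F) (𝔓 : Ideal (Zb F)) : ∃ 𝔓', Tr g 𝔓 𝔓' := by
  refine ⟨{ carrier := {y | img g⁻¹ y ∈ 𝔓}, add_mem' := ?_, zero_mem' := ?_, smul_mem' := ?_ }, ?_⟩
  · intro a b ha hb
    have h : img g⁻¹ (a + b) = img g⁻¹ a + img g⁻¹ b := Subtype.ext (map_add g⁻¹ _ _)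
    show img g⁻¹ (a + b) ∈ 𝔓
    rw [h]
    exact 𝔓.add_mem ha hb
  · have h : img g⁻¹ (0 : Zb F) = 0 := Subtype.ext (map_zero g⁻¹)
    show img g⁻¹ (0 : Zb F) ∈ 𝔓
    rw [h]
    exact 𝔓.zero_mem
  · intro c a ha
    have h : img g⁻¹ (c * a) = img g⁻¹ c * img g⁻¹ a := Subtype.ext (map_mul g⁻¹ _ _)
    show img g⁻¹ (c * a) ∈ 𝔓
    rw [h]
    exact 𝔓.mul_mem_left _ ha
  · intro x y hxy
    have h : img g⁻¹ y = x := Subtype.ext (by
      rw [img_val, hxy]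
      exact g.symm_apply_apply _)
    show x ∈ 𝔓 ↔ img g⁻¹ y ∈ 𝔓
    rw [h]

theorem Tr.isPrime {g : Gal F} {𝔓 𝔓' : Ideal (Zb F)} (h : Tr g 𝔓 𝔓') (hp : 𝔓.IsPrime) :
    𝔓'.IsPrime := by
  have h0 : ∀ y : Zb F, y ∈ 𝔓' ↔ img g⁻¹ y ∈ 𝔓 := fun y =>
    (h (img g⁻¹ y) y (g.apply_symm_apply _).symm).symm
  refine ⟨?_, ?_⟩
  · rw [Ideal.ne_top_iff_one, h0]
    have h1 : img g⁻¹ (1 : Zb F) = 1 := Subtype.ext (map_one g⁻¹)
    rw [h1]
    exact (Ideal.ne_top_iff_one _).1 hp.ne_top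
  · intro a b hab
    rw [h0] at hab ⊢
    rw [h0]
    have h1 : img g⁻¹ (a * b) = img g⁻¹ a * img g⁻¹ b := Subtype.ext (map_mul g⁻¹ _ _)
    rw [h1] at hab
    exact hp.mem_or_mem hab

theorem Tr.over [NumberField F] {g : Gal F} {𝔓 𝔓' : Ideal (Zb F)} {v : Pl F} (h : Tr g 𝔓 𝔓')
    (hv : Over v 𝔓) : Over v 𝔓' := by
  refine ⟨h.isPrime hv.1, fun x y hxy => ?_⟩
  rw [hv.2 x y hxy]
  refine h y y ?_
  rw [hxy]
  exact (g.commutes _).symm

/-- the decomposition group -/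
def Dec (𝔓 : Ideal (Zb F)) : Subgroup (Gal F) where
  carrier := {σ | Tr σ 𝔓 𝔓}
  mul_mem' := fun ha hb => hb.mul ha
  one_mem' := Tr.one 𝔓
  inv_mem' := fun h => h.inv

theorem mem_dec {𝔓 : Ideal (Zb F)} {σ : Gal F} : σ ∈ Dec 𝔓 ↔ Tr σ 𝔓 𝔓 := Iff.rfl

theorem Tr.dec {g : Gal F} {𝔓 𝔓' : Ideal (Zb F)} (h : Tr g 𝔓 𝔓') (σ : Gal F) :
    g * σ * g⁻¹ ∈ Dec 𝔓' ↔ σ ∈ Dec 𝔓 := by
  constructor
  · intro h1
    have h2 : Tr (g⁻¹ * (g * σ * g⁻¹) * g) 𝔓 𝔓 := (h.mul h1).mul h.inv |> fun h3 => by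
      have h4 : g⁻¹ * (g * σ * g⁻¹ * g) = g⁻¹ * (g * σ * g⁻¹) * g := by group
      rw [← h4]
      exact h3
    have h5 : g⁻¹ * (g * σ * g⁻¹) * g = σ := by group
    rw [h5] at h2
    exact h2
  · intro h1
    have h2 := (h.inv.mul h1).mul h
    have h3 : g * (σ * g⁻¹) = g * σ * g⁻¹ := by group
    rw [h3] at h2
    exact h2

/-- a homomorphism on a subgroup of `Gal F` which is trivial on an open subgroup -/
def Cont {H : Subgroup (Gal F)} {A : Type} [Group A] (ϕ : H →* A) : Prop :=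
  ∃ M : Subgroup (Gal F), IsOpen (M : Set (Gal F)) ∧ ∀ (σ : Gal F) (h : σ ∈ H), σ ∈ M →
    ϕ ⟨σ, h⟩ = 1

/-- `c` is the complex conjugation for an embedding of the algebraic closure in `ℂ` -/
def CC (c : Gal F) : Prop :=
  ∃ φ : AlgebraicClosure F →+* ℂ, ∀ x, φ (c x) = starRingEnd ℂ (φ x)

theorem CC.conj {c : Gal F} (h : CC c) (g : Gal F) : CC (g⁻¹ * c * g) := by
  obtain ⟨φ, hφ⟩ := h
  refine ⟨φ.comp (g : AlgebraicClosure F →+* AlgebraicClosure F), fun x => ?_⟩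
  show φ (g (g⁻¹ (c (g x)))) = _
  have h1 : g (g⁻¹ (c (g x))) = c (g x) := g.apply_symm_apply _
  rw [h1, hφ]
  rfl

theorem CC.sq {c : Gal F} (h : CC c) : c * c = 1 := by
  obtain ⟨φ, hφ⟩ := h
  ext x
  apply φ.injective
  show φ (c (c x)) = φ x
  rw [hφ, hφ, Complex.conj_conj]

/-- the finite Galois extensions of `F` to be constructed: solvable, totally real (if `F` is), the
places in `A` split completely -/
structure Good [NumberField F] (A : Finset (Pl F)) (N : Subgroup (Gal F)) : Prop where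
  normal : N.Normal
  isOpen : IsOpen (N : Set (Gal F))
  solv : ∃ r : ℕ, derivedSeries (Gal F) r ≤ N
  cc : ∀ c : Gal F, CC c → c ∈ N
  split : ∀ v ∈ A, ∀ 𝔓 : Ideal (Zb F), Over v 𝔓 → Dec 𝔓 ≤ N

/-- the place `w` of the intermediate field `Z` lies under `𝔓` -/
def OverZ (Z : IntermediateField F (AlgebraicClosure F)) [NumberField Z] (w : Pl Z)
    (𝔓 : Ideal (Zb F)) : Prop :=
  𝔓.IsPrime ∧ ∀ (x : 𝓞 Z) (y : Zb F), (y : AlgebraicClosure F) = ((x : Z) : AlgebraicClosure F) →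
    (x ∈ w.asIdeal ↔ y ∈ 𝔓)

end BKS
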