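import Pool.Agent.Helper64.BKS.Stmts
import Pool.Agent.Helper57.REC.Stmts1

/-!
# EX: existence of the extension
-/

set_option autoImplicit false

open NumberField
open scoped Classical

namespace BKS

open BKA (Gal Zb Pl q Over Congr)

variable {F : Type} [Field F] [NumberField F]

theorem Good.mono {A A' : Finset (Pl F)} {N : Subgroup (Gal F)} (h : Good A N) (hA : A' ⊆ A) :
    Good A' N :=
  ⟨h.normal, h.isOpen, h.solv, h.cc, fun v hv => h.split v (hA hv)⟩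

theorem good_top (A : Finset (Pl F)) : Good A (⊤ : Subgroup (Gal F)) :=
  ⟨inferInstance, isOpen_univ, ⟨0, le_top⟩, fun _ _ => Subgroup.mem_top _, fun _ _ _ _ => le_top⟩

theorem quot_finite (M : Subgroup (Gal F)) [M.Normal] (hM : IsOpen (M : Set (Gal F))) :
    Finite (Gal F ⧸ M) := Subgroup.quotient_finite_of_isOpen M hM

/-- the size of the decomposition group in `Gal F ⧸ M` -/
noncomputable def sz (M N : Subgroup (Gal F)) [M.Normal] (𝔓 : Ideal (Zb F)) : ℕ :=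
  Nat.card ((N ⊓ Dec 𝔓).map (QuotientGroup.mk' M))

theorem sz_le (M N N' : Subgroup (Gal F)) [M.Normal] (hM : IsOpen (M : Set (Gal F)))
    (h : N' ≤ N) (𝔓 : Ideal (Zb F)) : sz M N' 𝔓 ≤ sz M N 𝔓 := by
  have := quot_finite M hM
  exact Nat.card_le_card_of_injective _ (Subgroup.inclusion_injective
    (Subgroup.map_mono (inf_le_inf_right _ h)))

theorem sz_lt (M N N' : Subgroup (Gal F)) [M.Normal] (hM : IsOpen (M : Set (Gal F)))
    (h : N' ≤ N) (𝔓 : Ideal (Zb F))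
    (hlt : ¬ (N ⊓ Dec 𝔓).map (QuotientGroup.mk' M) ≤ (N' ⊓ Dec 𝔓).map (QuotientGroup.mk' M)) :
    sz M N' 𝔓 < sz M N 𝔓 := by
  have := quot_finite M hM
  refine lt_of_le_of_ne (sz_le M N N' hM h 𝔓) fun heq => hlt ?_
  have hle : (N' ⊓ Dec 𝔓).map (QuotientGroup.mk' M) ≤ (N ⊓ Dec 𝔓).map (QuotientGroup.mk' M) :=
    Subgroup.map_mono (inf_le_inf_right _ h)
  have h2 : (N' ⊓ Dec 𝔓).map (QuotientGroup.mk' M) = (N ⊓ Dec 𝔓).map (QuotientGroup.mk' M) := by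
    apply Subgroup.eq_of_le_of_card_ge hle
    exact heq.ge
  exact h2.ge

/-- kill the decomposition groups at finitely many primes -/
theorem kill (step : ST_STEP) (A : Finset (Pl F)) (M : Subgroup (Gal F)) (hMn : M.Normal)
    (hM : IsOpen (M : Set (Gal F))) (B : Finset (Pl F)) (hAB : Disjoint A B)
    (P : Pl F → Ideal (Zb F)) (hP : ∀ v, Over v (P v)) :
    ∀ (k : ℕ) (N : Subgroup (Gal F)), Good A N → ∑ v ∈ B, sz M N (P v) = k →
      ∃ N' : Subgroup (Gal F), N' ≤ N ∧ Good A N' ∧ ∀ v ∈ B, N' ⊓ Dec (P v) ≤ M := by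
  intro k
  induction k using Nat.strong_induction_on with
  | _ k ih =>
    intro N hN hk
    by_cases hall : ∀ v ∈ B, N ⊓ Dec (P v) ≤ M
    · exact ⟨N, le_rfl, hN, hall⟩
    · push Not at hall
      obtain ⟨v, hv, hnot⟩ := hall
      have hvA : v ∉ A := fun h => Finset.disjoint_left.1 hAB h hv
      obtain ⟨N', hN', hG, hlt⟩ := step F A N hN v hvA (P v) (hP v) M hM hnot
      have hsum : ∑ u ∈ B, sz M N' (P u) < ∑ u ∈ B, sz M N (P u) :=
        Finset.sum_lt_sum (fun u _ => sz_le M N N' hM hN' (P u))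
          ⟨v, hv, sz_lt M N N' hM hN' (P v) hlt⟩
      obtain ⟨N'', h1, h2, h3⟩ := ih _ (hk ▸ hsum) N' hG rfl
      exact ⟨N'', h1.trans hN', h2, h3⟩

/-- make the indices divisible by `n` -/
theorem indices (elm : ST_ELM) (A : Finset (Pl F)) (n : ℕ) :
    0 < n → ∀ N : Subgroup (Gal F), Good A N → ∃ N' : Subgroup (Gal F), N' ≤ N ∧ Good A N' ∧
      ∀ σ : Gal F, n * (Subgroup.zpowers σ ⊔ N).index ∣ (Subgroup.zpowers σ ⊔ N').index := by
  induction n using Nat.recOnMul with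
  | zero => exact fun hn => absurd hn (lt_irrefl 0)
  | one =>
    intro _ N hN
    exact ⟨N, le_rfl, hN, fun _ => by rw [one_mul]⟩
  | prime p hp =>
    intro _ N hN
    obtain ⟨N', h1, h2, h3⟩ := elm F A N hN p hp
    exact ⟨N', h1, h2, h3⟩
  | mul a b iha ihb =>
    intro hn N hN
    obtain ⟨N₁, h1, h2, h3⟩ := iha (Nat.pos_of_mul_pos_right hn) N hN
    obtain ⟨N₂, h4, h5, h6⟩ := ihb (Nat.pos_of_mul_pos_left hn) N₁ h2
    refine ⟨N₂, h4.trans h1, h5, fun σ => ?_⟩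
    refine Dvd.dvd.trans ?_ (h6 σ)
    rw [mul_comm a b, mul_assoc]
    exact Nat.mul_dvd_mul_left b (h3 σ)

theorem exists_prime (ovp : REC.ST_OVP) (v : Pl F) : ∃ 𝔓 : Ideal (Zb F), Over v 𝔓 := by
  obtain ⟨𝔓, h1, h2⟩ := (ovp F).1 v
  exact ⟨𝔓, h1, fun x y hxy => (h2 x y hxy).symm⟩

theorem trans_prime (ovp : REC.ST_OVP) (v : Pl F) (𝔓 𝔓' : Ideal (Zb F)) (h : Over v 𝔓)
    (h' : Over v 𝔓') : ∃ g : Gal F, Tr g 𝔓 𝔓' :=
  (ovp F).2.2.2.2.2.1 v 𝔓 𝔓' ⟨h.1, fun x y hxy => (h.2 x y hxy).symm⟩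
    ⟨h'.1, fun x y hxy => (h'.2 x y hxy).symm⟩

theorem st_EX (step : ST_STEP) (elm : ST_ELM) (dsj : ST_DSJ) (ovp : REC.ST_OVP) : ST_EX := by
  intro F _ _ A B hAB M hMn hM n hn
  obtain ⟨A', hA'B, hdis⟩ := dsj F M hMn hM B
  have hAAB : Disjoint (A ∪ A') B := Finset.disjoint_union_left.2 ⟨hAB, hA'B⟩
  choose P hP using fun v : Pl F => exists_prime ovp v
  obtain ⟨N₁, -, hG₁, hk₁⟩ := kill step (A ∪ A') M hMn hM B hAAB P hP _ ⊤ (good_top _) rfl
  obtain ⟨N₂, hle, hG₂, hind⟩ := indices elm (A ∪ A') n hn N₁ hG₁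
  refine ⟨N₂, hG₂.mono Finset.subset_union_left, ?_, fun σ => ?_, ?_⟩
  · intro v hv 𝔓 h𝔓 σ hσ
    obtain ⟨g, hg⟩ := trans_prime ovp v (P v) 𝔓 (hP v) h𝔓
    have h1 : g * (g⁻¹ * σ * g) * g⁻¹ = σ := by group
    have h2 : g⁻¹ * σ * g ∈ Dec (P v) := by
      rw [← hg.dec, h1]
      exact hσ.2
    have h3 : g⁻¹ * σ * g ∈ N₁ := by
      have := hG₁.normal.conj_mem σ (hle hσ.1) g⁻¹
      rwa [inv_inv] at this
    have h4 := hMn.conj_mem _ (hk₁ v hv ⟨h3, h2⟩) g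
    rwa [h1] at h4
  · exact (dvd_mul_right _ _).trans (hind σ)
  · exact hdis N₂ hG₂.normal fun v hv => hG₂.split v (Finset.mem_union_right _ hv)

end BKS
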