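import Pool.Agent.Helper64.BKS.Base

/-!
# Totally real solvable extensions with prescribed local behaviour: statements of the modules
Proofs: /team-store/bks_blueprint.md   [helper64]
-/

set_option autoImplicit false

open NumberField
open scoped Classical

namespace BKS

open BKA (Gal Zb Pl q Over Congr)

/-- TRF: the transfer of a homomorphism on `H`, on a subgroup `D`. -/
def ST_TRF : Prop :=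
  (∀ (Γ A : Type) [Group Γ] [CommGroup A] (H D : Subgroup Γ) [H.FiniteIndex] (ϕ : H →* A)
    (φ : D →* A) (m : ℕ), (∀ a : A, a ^ (m * H.relIndex D) = a) →
    (∀ (δ : Γ) (hD : δ ∈ D) (hH : δ ∈ H), ϕ ⟨δ, hH⟩ = φ ⟨δ, hD⟩ ^ m) →
    (∀ g : Γ, (∀ d ∈ D, ∀ h ∈ H, g ≠ d * h) → ∀ δ ∈ D, ∀ hh : g⁻¹ * δ * g ∈ H,
      ϕ ⟨g⁻¹ * δ * g, hh⟩ = 1) →
    ∀ (δ : Γ) (hD : δ ∈ D), MonoidHom.transfer ϕ δ = φ ⟨δ, hD⟩) ∧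
  ∀ (Γ A : Type) [Group Γ] [CommGroup A] (H D : Subgroup Γ) [H.FiniteIndex] (ϕ : H →* A),
    (∀ g : Γ, ∀ δ ∈ D, ∀ hh : g⁻¹ * δ * g ∈ H, ϕ ⟨g⁻¹ * δ * g, hh⟩ = 1) →
    ∀ δ ∈ D, MonoidHom.transfer ϕ δ = 1

/-- TRA: `U` acts transitively on the primes over a prime of its fixed field. -/
def ST_TRA : Prop :=
  ∀ (F : Type) [Field F] [NumberField F] (U : Subgroup (Gal F)), IsOpen (U : Set (Gal F)) →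
    ∀ 𝔓 𝔓' : Ideal (Zb F), 𝔓.IsPrime → 𝔓'.IsPrime →
    (∀ x : Zb F, (∀ σ ∈ U, σ (x : AlgebraicClosure F) = x) → (x ∈ 𝔓 ↔ x ∈ 𝔓')) →
    ∃ σ ∈ U, Tr σ 𝔓 𝔓'

/-- KUM: Kummer theory, characters come from elements. -/
def ST_KUM : Prop :=
  ∀ (F : Type) [Field F] [NumberField F] (H : Subgroup (Gal F)), IsOpen (H : Set (Gal F)) →
    ∀ ℓ : ℕ, ℓ.Prime → ∀ ζ : AlgebraicClosure F, IsPrimitiveRoot ζ ℓ → (∀ σ ∈ H, σ ζ = ζ) →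
    ∀ ϕ : H →* Multiplicative (ZMod ℓ), Cont ϕ → ∃ β : Zb F, β ≠ 0 ∧
      ∀ (σ : Gal F) (h : σ ∈ H), σ (β : AlgebraicClosure F) =
        ζ ^ (Multiplicative.toAdd (ϕ ⟨σ, h⟩)).val * (β : AlgebraicClosure F)

/-- KUC: Kummer theory, elements give characters. -/
def ST_KUC : Prop :=
  ∀ (F : Type) [Field F] [NumberField F] (H : Subgroup (Gal F)) (ℓ : ℕ), ℓ.Prime →
    ∀ ζ : AlgebraicClosure F, IsPrimitiveRoot ζ ℓ → (∀ σ ∈ H, σ ζ = ζ) →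
    ∀ b : AlgebraicClosure F, b ≠ 0 → (∀ σ ∈ H, σ (b ^ ℓ) = b ^ ℓ) →
    ∃ ϕ : H →* Multiplicative (ZMod ℓ), Cont ϕ ∧ ∀ (σ : Gal F) (h : σ ∈ H),
      σ b = ζ ^ (Multiplicative.toAdd (ϕ ⟨σ, h⟩)).val * b

/-- HEN: elements which are close at `𝔓` have the same Kummer character on the decomposition
group. -/
def ST_HEN : Prop :=
  ∀ (F : Type) [Field F] [NumberField F] (Z : IntermediateField F (AlgebraicClosure F))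
    [NumberField Z] (w : Pl Z) (𝔓 : Ideal (Zb F)), OverZ Z w 𝔓 → ∀ ℓ : ℕ, ℓ.Prime →
    ∀ ζ : AlgebraicClosure F, IsPrimitiveRoot ζ ℓ → ∀ α : 𝓞 Z, α ≠ 0 →
    ∃ N : ℕ, ∀ a : 𝓞 Z, a - α ∈ w.asIdeal ^ N → ∀ b β : AlgebraicClosure F,
      b ^ ℓ = ((a : Z) : AlgebraicClosure F) → β ^ ℓ = ((α : Z) : AlgebraicClosure F) →
      ∀ σ : Gal F, (∀ z : Z, σ (z : AlgebraicClosure F) = z) → σ ζ = ζ → σ ∈ Dec 𝔓 →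
      σ b * β = b * σ β

/-- EXU: extension of a homomorphism from `D` to `D M`. -/
def ST_EXU : Prop :=
  ∀ (G A : Type) [Group G] [Group A] (D M : Subgroup G) [M.Normal] (φ : D →* A),
    (∀ (d : G) (h : d ∈ D), d ∈ M → φ ⟨d, h⟩ = 1) →
    ∃ φ' : ↥(D ⊔ M) →* A, (∀ (d : G) (h : d ∈ D) (h' : d ∈ D ⊔ M), φ' ⟨d, h'⟩ = φ ⟨d, h⟩) ∧
      ∀ (m : G) (_ : m ∈ M) (h' : m ∈ D ⊔ M), φ' ⟨m, h'⟩ = 1

/-- PHI: the Kummer character on the stabiliser of a root of unity (from TRA, KUM, KUC, HEN,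
REC.APX). -/
def ST_PHI : Prop :=
  ∀ (F : Type) [Field F] [NumberField F] (Γ U : Subgroup (Gal F)), IsOpen (U : Set (Gal F)) →
    U ≤ Γ → ∀ ℓ : ℕ, ℓ.Prime → ∀ ζ : AlgebraicClosure F, IsPrimitiveRoot ζ ℓ →
    ∀ (v : Pl F) (𝔓 : Ideal (Zb F)), Over v 𝔓 → Γ ⊓ Dec 𝔓 ≤ U →
    ∀ φ : U →* Multiplicative (ZMod ℓ), Cont φ → ∀ (m : ℕ) (Q : Finset (Ideal (Zb F))),
    (∀ 𝔔 ∈ Q, (∃ u : Pl F, Over u 𝔔) ∧ ∀ γ ∈ Γ, ¬ Tr γ 𝔓 𝔔) →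
    ∃ ϕ : ↥(U ⊓ MulAction.stabilizer (Gal F) ζ) →* Multiplicative (ZMod ℓ), Cont ϕ ∧
      (∀ (σ : Gal F) (h : σ ∈ U ⊓ MulAction.stabilizer (Gal F) ζ) (h' : σ ∈ U), σ ∈ Dec 𝔓 →
        ϕ ⟨σ, h⟩ = φ ⟨σ, h'⟩ ^ m) ∧
      (∀ g ∈ Γ, (∀ d ∈ Γ ⊓ Dec 𝔓, ∀ h ∈ U ⊓ MulAction.stabilizer (Gal F) ζ, g ≠ d * h) →
        ∀ σ ∈ Dec 𝔓, ∀ h : g⁻¹ * σ * g ∈ U ⊓ MulAction.stabilizer (Gal F) ζ,
          ϕ ⟨g⁻¹ * σ * g, h⟩ = 1) ∧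
      (∀ 𝔔 ∈ Q, ∀ g ∈ Γ, ∀ σ ∈ Dec 𝔔,
        ∀ h : g⁻¹ * σ * g ∈ U ⊓ MulAction.stabilizer (Gal F) ζ, ϕ ⟨g⁻¹ * σ * g, h⟩ = 1) ∧
      ∀ (c : Gal F) (h : c ∈ U ⊓ MulAction.stabilizer (Gal F) ζ), CC c → ϕ ⟨c, h⟩ = 1

/-- GL1: a local character of prime order is the restriction of a global one, which is trivial at
finitely many other places and at the complex conjugations (from EXU, PHI, TRF). -/
def ST_GL1 : Prop :=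
  ∀ (F : Type) [Field F] [NumberField F] (Γ : Subgroup (Gal F)), IsOpen (Γ : Set (Gal F)) →
    ∀ ℓ : ℕ, ℓ.Prime → ∀ (v : Pl F) (𝔓 : Ideal (Zb F)), Over v 𝔓 →
    ∀ φ : ↥(Γ ⊓ Dec 𝔓) →* Multiplicative (ZMod ℓ), Cont φ →
    ∀ Q : Finset (Ideal (Zb F)), (∀ 𝔔 ∈ Q, (∃ u : Pl F, Over u 𝔔) ∧ ∀ γ ∈ Γ, ¬ Tr γ 𝔓 𝔔) →
    ∃ χ : Γ →* Multiplicative (ZMod ℓ), Cont χ ∧
      (∀ (σ : Gal F) (h : σ ∈ Γ) (h' : σ ∈ Γ ⊓ Dec 𝔓), χ ⟨σ, h⟩ = φ ⟨σ, h'⟩) ∧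
      (∀ 𝔔 ∈ Q, ∀ (σ : Gal F) (h : σ ∈ Γ), σ ∈ Dec 𝔔 → χ ⟨σ, h⟩ = 1) ∧
      ∀ (c : Gal F) (h : c ∈ Γ), CC c → χ ⟨c, h⟩ = 1

/-- SLV: decomposition groups are prosolvable. -/
def ST_SLV : Prop :=
  ∀ (F : Type) [Field F] [NumberField F] (v : Pl F) (𝔓 : Ideal (Zb F)), Over v 𝔓 →
    ∀ (M : Subgroup (Gal F)) [M.Normal], IsOpen (M : Set (Gal F)) →
    Group.IsSolvable ↥((Dec 𝔓).map (QuotientGroup.mk' M))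

/-- CYCX: every number field has cyclic extensions of degree `ℓ`. -/
def ST_CYCX : Prop :=
  ∀ (F : Type) [Field F] [NumberField F] (Γ : Subgroup (Gal F)), IsOpen (Γ : Set (Gal F)) →
    ∀ ℓ : ℕ, ℓ.Prime → ∃ χ : Γ →* Multiplicative (ZMod ℓ), Cont χ ∧ χ ≠ 1

/-- COR: the Galois closure of an abelian extension of exponent `ℓ` (from REC.OVP). -/
def ST_COR : Prop :=
  ∀ (F : Type) [Field F] [NumberField F] (A : Finset (Pl F)) (N : Subgroup (Gal F)), Good A N →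
    ∃ Q : Finset (Ideal (Zb F)), (∀ 𝔔 ∈ Q, ∃ v ∈ A, Over v 𝔔) ∧
    ∀ (ℓ : ℕ) (X : Finset (N →* Multiplicative (ZMod ℓ))), ℓ.Prime →
      (∀ χ ∈ X, Cont χ ∧
        (∀ 𝔔 ∈ Q, ∀ (σ : Gal F) (h : σ ∈ N), σ ∈ Dec 𝔔 → χ ⟨σ, h⟩ = 1) ∧
        ∀ (c : Gal F) (h : c ∈ N), CC c → χ ⟨c, h⟩ = 1) →
      ∃ N' : Subgroup (Gal F), N' ≤ N ∧ Good A N' ∧
        (∀ χ ∈ X, ∀ (σ : Gal F) (h : σ ∈ N), σ ∈ N' → χ ⟨σ, h⟩ = 1) ∧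
        (∀ σ ∈ N, σ ^ ℓ ∈ N') ∧ ∀ σ ∈ N, ∀ τ ∈ N, σ * τ * σ⁻¹ * τ⁻¹ ∈ N'

/-- STEP: make the decomposition group smaller (from GL1, SLV, COR). -/
def ST_STEP : Prop :=
  ∀ (F : Type) [Field F] [NumberField F] (A : Finset (Pl F)) (N : Subgroup (Gal F)), Good A N →
    ∀ v : Pl F, v ∉ A → ∀ 𝔓 : Ideal (Zb F), Over v 𝔓 → ∀ (M : Subgroup (Gal F)) [M.Normal],
    IsOpen (M : Set (Gal F)) → ¬ N ⊓ Dec 𝔓 ≤ M →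
    ∃ N' : Subgroup (Gal F), N' ≤ N ∧ Good A N' ∧
      ¬ (N ⊓ Dec 𝔓).map (QuotientGroup.mk' M) ≤ (N' ⊓ Dec 𝔓).map (QuotientGroup.mk' M)

/-- ELM: make the indices of the cyclic subgroups larger (from CYCX, REC.DN1, REC.OVP, GL1,
COR). -/
def ST_ELM : Prop :=
  ∀ (F : Type) [Field F] [NumberField F] (A : Finset (Pl F)) (N : Subgroup (Gal F)), Good A N →
    ∀ ℓ : ℕ, ℓ.Prime → ∃ N' : Subgroup (Gal F), N' ≤ N ∧ Good A N' ∧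
      ∀ σ : Gal F, ℓ * (Subgroup.zpowers σ ⊔ N).index ∣ (Subgroup.zpowers σ ⊔ N').index

/-- DSJ: linear disjointness by complete splitting (from REC.DN1, REC.OVP). -/
def ST_DSJ : Prop :=
  ∀ (F : Type) [Field F] [NumberField F] (M : Subgroup (Gal F)), M.Normal →
    IsOpen (M : Set (Gal F)) → ∀ B : Finset (Pl F), ∃ A' : Finset (Pl F), Disjoint A' B ∧
    ∀ N : Subgroup (Gal F), N.Normal → (∀ v ∈ A', ∀ 𝔓 : Ideal (Zb F), Over v 𝔓 → Dec 𝔓 ≤ N) →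
      N ⊔ M = ⊤

/-- EX: existence of the extension (from STEP, ELM, DSJ, REC.OVP). -/
def ST_EX : Prop :=
  ∀ (F : Type) [Field F] [NumberField F] (A B : Finset (Pl F)), Disjoint A B →
    ∀ M : Subgroup (Gal F), M.Normal → IsOpen (M : Set (Gal F)) → ∀ n : ℕ, 0 < n →
    ∃ N : Subgroup (Gal F), Good A N ∧
      (∀ v ∈ B, ∀ 𝔓 : Ideal (Zb F), Over v 𝔓 → N ⊓ Dec 𝔓 ≤ M) ∧
      (∀ σ : Gal F, n ∣ (Subgroup.zpowers σ ⊔ N).index) ∧ N ⊔ M = ⊤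

end BKS
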