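import Pool.Agent.Helper64.BKS.Stmts

/-!
# The rank formula and solvable totally real extensions: definitions and statements
Proofs: /team-store/bks_blueprint.md   [helper64]
-/

set_option autoImplicit false

open NumberField
open scoped Classical

namespace BKA

variable {F E k : Type} [Field F] [NumberField F] [Field E] [Field k] [TopologicalSpace k]

/-- the same representation with a larger finite set of bad places -/
def Repr.enl (V : Repr F E k) (S' : Finset (Pl F)) (h : V.S ⊆ S') : Repr F E k :=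
  { V with
    S := S'
    unr := fun v hv => V.unr v fun h1 => hv (h h1)
    frob := fun v hv => V.frob v fun h1 => hv (h h1)
    fac := fun v hv => V.fac v fun h1 => hv (h h1)
    bound := fun v hv => V.bound v fun h1 => hv (h h1)
    real := fun v hv => V.real v fun h1 => hv (h h1) }

/-- `L / F` is solvable, `L` contains all complex conjugations in its Galois group (it is totally real
if `F` is), the places in `A` split completely in `L`, and `L` is linearly disjoint over `F` from the
extension with Galois group `M`. -/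
structure Ext.Nice {V : Repr F E k} (L : Ext V) (A : Finset (Pl F)) (M : Subgroup (Gal F)) :
    Prop where
  solv : Group.IsSolvable L.G
  real : ∀ c : Gal F, BKS.CC c → c ∈ L.N
  split : ∀ v ∈ A, ∀ 𝔓 : Ideal (Zb F), Over v 𝔓 → ∀ σ : Gal F,
    (∀ x y : Zb F, (y : AlgebraicClosure F) = σ (x : AlgebraicClosure F) → (x ∈ 𝔓 ↔ y ∈ 𝔓)) →
    σ ∈ L.N
  disj : L.N ⊔ M = ⊤

/-- BLD: open normal subgroups give extensions (from REC.FRM, REC.OVP). -/
def ST_BLD : Prop :=
  ∀ (F E k : Type) [Field F] [NumberField F] [Field E] [Field k] [TopologicalSpace k]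
    (V : Repr F E k) (N : Subgroup (Gal F)), N.Normal → IsOpen (N : Set (Gal F)) →
    ∃ (S' : Finset (Pl F)) (h : V.S ⊆ S') (L : Ext (V.enl S' h)), L.N = N

/-- ENL: the Selmer group and the order of the `L`-function over `F` do not change (from
SUM, BND, EUL). -/
def ST_ENL : Prop :=
  ∀ (F E k : Type) [Field F] [NumberField F] [Field E] [Field k] [TopologicalSpace k]
    (V : Repr F E k) (C : Local V.ρ) (S' : Finset (Pl F)) (h : V.S ⊆ S') (L₀ : Ext V)
    (L : Ext (V.enl S' h)), (∀ v ∉ V.S, ∀ j, ‖V.α v j‖ < 1) →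
    (∀ s : ℕ, L₀.Sel C ⊤ Ch.triv s → Ext.Sel (V := V.enl S' h) L C ⊤ Ch.triv s) ∧
    ∀ a : ℤ, L₀.Ord ⊤ Ch.triv a → L.Ord ⊤ Ch.triv a

/-- T3: the rank formula over `F` from the rank formula over totally real fields `K` in solvable
extensions, with `n ∣ [K : F]`, at which the local representations are reducible. -/
def ST_T3 : Prop :=
  ∀ (F E k : Type) [Field F] [NumberField F] [Field E] [Field k] [CharZero k]
    [TopologicalSpace k] [IsTopologicalRing k] (V : Repr F E k) (C : Local V.ρ),
    (∀ v ∉ V.S, ∀ j, ‖V.α v j‖ < 1) → ∀ n : ℕ, 0 < n →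
    ∀ (A B : Finset (Pl F)), Disjoint A B → ∀ M : Subgroup (Gal F), M.Normal →
    IsOpen (M : Set (Gal F)) → ∀ T : Set (Aux F), (∀ R ∈ T, R.B ⊆ B ∧ R.Unip M) →
    (∀ (S' : Finset (Pl F)) (h : V.S ⊆ S') (L : Ext (V.enl S' h)), L.Nice A M →
      ∀ H, (∃ s, L.Sel C H Ch.triv s) ∧ ∃ a, L.Ord H Ch.triv a) →
    (∀ (S' : Finset (Pl F)) (h : V.S ⊆ S') (L : Ext (V.enl S' h)), L.Nice A M →
      ∀ H : Subgroup L.G, n ∣ H.index → (∀ R ∈ T, R.Red (L.gal H)) → L.Rank C H) →
    ∀ L₀ : Ext V, L₀.Rank C ⊤

end BKA
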