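import Pool.Agent.Helper64.BKS.Stmts2
import Pool.Agent.Helper64.BKA.T2

/-!
# T3: the rank formula over `F` from the rank formula over totally real fields in solvable extensions
-/

set_option autoImplicit false

open NumberField
open scoped Classical

namespace BKA

variable {F E k : Type} [Field F] [NumberField F] [Field E] [Field k] [TopologicalSpace k]

/-- T2 with a condition on the indices of the cyclic subgroups -/
theorem t2v [CharZero k] [IsTopologicalRing k] (V : Repr F E k) (C : Local V.ρ) (L : Ext V)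
    (hs : ∀ H, ∃ s, L.Sel C H Ch.triv s) (ha : ∀ H, ∃ a, L.Ord H Ch.triv a)
    (n : ℕ) (hn : ∀ H : Subgroup L.G, IsCyclic H → n ∣ H.index)
    (T : Set (Aux F)) (hT : ∀ R ∈ T, R.Unip L.N)
    (hBK : ∀ H : Subgroup L.G, n ∣ H.index → (∀ R ∈ T, R.Red (L.gal H)) → L.Rank C H)
    (H : Subgroup L.G) : L.Rank C H := by
  have : CharZero E := V.ι.charZero
  have := L.normal
  choose s hs using hs
  choose a ha using ha
  obtain ⟨m, hm, hf⟩ := cyc_rel H
  have h1 : (fun H => (s H : ℤ) - a H) H = 0 := by
    apply hf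
    · intro D hD
      have h2 := hBK D (hn D hD) (fun R hR v hv 𝔓 h𝔓 =>
        st_LOC F L.N D hD R.K R.r v 𝔓 h𝔓 (hT R hR v hv 𝔓 h𝔓)) _ _ (hs D) (ha D)
      show (s D : ℤ) - a D = 0
      omega
    · have h3 := art C L (s ⊥) (hs ⊥)
        (fun i : Fin (Fintype.card (Subgroup L.G)) => (Fintype.equivFin (Subgroup L.G)).symm i)
        (fun _ => Ch.triv)
        (fun i => m ((Fintype.equivFin (Subgroup L.G)).symm i))
        (fun i => s ((Fintype.equivFin (Subgroup L.G)).symm i))
        (fun i => a ((Fintype.equivFin (Subgroup L.G)).symm i))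
        (fun i => hs _) (fun i => ha _) (fun x => by
          have h4 := Equiv.sum_comp (Fintype.equivFin (Subgroup L.G)).symm
            (fun B : Subgroup L.G => (m B : E) * ind B (1 : B →* Eˣ) x)
          refine Eq.trans h4 ?_
          exact hm E x)
      rw [Equiv.sum_comp (Fintype.equivFin (Subgroup L.G)).symm
        (fun B : Subgroup L.G => m B * ((s B : ℤ) - a B))] at h3
      exact h3
  have h2 : (s H : ℤ) - a H = 0 := h1
  intro s' a' hs' ha'
  rw [sel_unique C L (s ⊥) (hs ⊥) H Ch.triv _ _ hs' (hs H),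
    ord_unique L H Ch.triv _ _ ha' (ha H)]
  omega

theorem solv_of_derived {G : Type} [Group G] (N : Subgroup G) [N.Normal] (r : ℕ)
    (h : derivedSeries G r ≤ N) : Group.IsSolvable (G ⧸ N) := by
  refine ⟨r, ?_⟩
  have h1 : derivedSeries (G ⧸ N) r = (derivedSeries G r).map (QuotientGroup.mk' N) :=
    (map_derivedSeries_eq (QuotientGroup.mk'_surjective N) r).symm
  rw [h1, eq_bot_iff]
  rintro _ ⟨x, hx, rfl⟩
  rw [Subgroup.mem_bot]
  exact (QuotientGroup.eq_one_iff x).2 (h hx)

theorem st_T3 (ex : BKS.ST_EX) (bld : ST_BLD) (enl : ST_ENL) : ST_T3 := by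
  intro F E k _ _ _ _ _ _ _ V C hpur n hn A B hAB M hM hMo T hT hfin hr L₀
  obtain ⟨N, hN, hloc, hind, hdis⟩ := ex F A B hAB M hM hMo n hn
  obtain ⟨S', h, L, hL⟩ := bld F E k V N hN.normal hN.isOpen
  have hnice : L.Nice A M := by
    refine ⟨?_, fun c hc => ?_, fun v hv 𝔓 h𝔓 σ hσ => ?_, ?_⟩
    · obtain ⟨r, hr'⟩ := hN.solv
      have hn' := L.normal
      exact @solv_of_derived (Gal F) _ L.N L.normal r (by rw [hL]; exact hr')
    · rw [hL]
      exact hN.cc c hc
    · rw [hL]
      exact hN.split v hv 𝔓 h𝔓 hσ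
    · rw [hL]
      exact hdis
  have hcyc : ∀ H : Subgroup L.G, IsCyclic H → n ∣ H.index := by
    intro H hH
    obtain ⟨⟨y, hy⟩, hgen⟩ := hH.exists_generator
    obtain ⟨σ, rfl⟩ : ∃ σ : Gal F, L.res σ = y := by
      have := L.normal
      exact QuotientGroup.mk'_surjective L.N y
    have h1 : H.comap L.res = Subgroup.zpowers σ ⊔ L.N := by
      ext τ
      rw [Subgroup.mem_comap]
      constructor
      · intro hτ
        obtain ⟨j, hj⟩ := Subgroup.mem_zpowers_iff.1 (hgen ⟨L.res τ, hτ⟩)
        have h2 : L.res σ ^ j = L.res τ := congrArg Subtype.val hj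
        have h3 : L.res ((σ ^ j)⁻¹ * τ) = 1 := by
          rw [map_mul, map_inv, map_zpow, h2, inv_mul_cancel]
        have h4 : (σ ^ j)⁻¹ * τ ∈ L.N := by
          have := L.normal
          exact (QuotientGroup.eq_one_iff _).1 h3
        have h5 : τ = σ ^ j * ((σ ^ j)⁻¹ * τ) := by group
        rw [h5]
        exact Subgroup.mul_mem_sup (Subgroup.zpow_mem _ (Subgroup.mem_zpowers σ) j) h4
      · intro hτ
        have hle : Subgroup.zpowers σ ⊔ L.N ≤ H.comap L.res := by
          rw [sup_le_iff]
          constructor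
          · rw [Subgroup.zpowers_le]
            exact hy
          · intro x hx
            rw [Subgroup.mem_comap]
            have h3 : L.res x = 1 := by
              have := L.normal
              exact (QuotientGroup.eq_one_iff _).2 hx
            rw [h3]
            exact H.one_mem
        exact hle hτ
    have h2 : (H.comap L.res).index = H.index := by
      have hsurj : Function.Surjective L.res := by
        have := L.normal
        exact QuotientGroup.mk'_surjective L.N
      exact Subgroup.index_comap_of_surjective H hsurj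
    rw [← h2, h1, hL]
    exact hind σ
  have hunip : ∀ R ∈ T, R.Unip L.N := by
    intro R hR v hv 𝔓 h𝔓 σ hσ hc
    refine (hT R hR).2 v hv 𝔓 h𝔓 σ ?_ hc
    refine hloc v ((hT R hR).1 hv) 𝔓 h𝔓 ⟨by rw [← hL]; exact hσ, ?_⟩
    -- inertia is contained in the decomposition group
    intro x y hxy
    have h1 := hc x y hxy
    rw [pow_one] at h1
    constructor
    · intro hx
      have h2 := 𝔓.add_mem h1 hx
      rwa [sub_add_cancel] at h2
    · intro hy
      have h2 := 𝔓.sub_mem hy h1
      rwa [sub_sub_cancel] at h2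
  have key := t2v (V.enl S' h) C L (fun H => (hfin S' h L hnice H).1)
    (fun H => (hfin S' h L hnice H).2) n hcyc T hunip (hr S' h L hnice) ⊤
  intro s a hs ha
  exact key s a ((enl F E k V C S' h L₀ L hpur).1 s hs) ((enl F E k V C S' h L₀ L hpur).2 a ha)

end BKA
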