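import Pool.Agent.Helper64.BKS.T3
import Pool.Agent.Helper64.BKA.T2S
import Pool.Agent.Helper19.BKS.ENL

/-!
# T3, strong form
-/

set_option autoImplicit false

open NumberField
open scoped Classical

namespace BKA

variable {F E k : Type} [Field F] [NumberField F] [Field E] [Field k] [TopologicalSpace k]

/-- the Selmer group over `F` does not depend on the field `L` -/
theorem sel_top (V : Repr F E k) (C : Local V.ρ) (S' : Finset (Pl F)) (h : V.S ⊆ S')
    (L₀ : Ext V) (L : Ext (V.enl S' h)) (s : ℕ)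
    (hs : Ext.Sel (V := V.enl S' h) L C ⊤ Ch.triv s) : L₀.Sel C ⊤ Ch.triv s := by
  unfold Ext.Sel at hs ⊢
  refine ENLaux.selDim_congr V.ρ C _ _ ?_ _ _ ?_ ?_ s hs
  · unfold Ext.gal
    rw [Subgroup.comap_top, Subgroup.comap_top]
  · have h1 : (Ch.triv : Ch E (⊤ : Subgroup L.G)).map (V.enl S' h).emb = 1 :=
      MonoidHom.comp_one _
    rw [h1]
    exact MonoidHom.one_comp _
  · have h1 : (Ch.triv : Ch E (⊤ : Subgroup L₀.G)).map V.emb = 1 := MonoidHom.comp_one _
    rw [h1]
    exact MonoidHom.one_comp _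

theorem t3f (ex : BKS.ST_EX) (bld : ST_BLD) (enl : ST_ENL)
    (F E k : Type) [Field F] [NumberField F] [Field E] [Field k] [CharZero k]
    [TopologicalSpace k] [IsTopologicalRing k] (V : Repr F E k) (C : Local V.ρ)
    (hpur : ∀ v ∉ V.S, ∀ j, ‖V.α v j‖ < 1) (n : ℕ) (hn : 0 < n)
    (A B : Finset (Pl F)) (hAB : Disjoint A B) (M : Subgroup (Gal F)) (hM : M.Normal)
    (hMo : IsOpen (M : Set (Gal F))) (T : Set (Aux F)) (hT : ∀ R ∈ T, R.B ⊆ B ∧ R.Unip M)
    (hr : ∀ (S' : Finset (Pl F)) (h : V.S ⊆ S') (L : Ext (V.enl S' h)), L.Nice A M →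
      ∀ H : Subgroup L.G, IsCyclic H → n ∣ H.index → (∀ R ∈ T, R.Red (L.gal H)) → L.RankF C H)
    (L₀ : Ext V) (hc : L₀.Cont ⊤) : L₀.RankF C ⊤ := by
  obtain ⟨N, hN, hloc, hind, hdis⟩ := ex F A B hAB M hM hMo n hn
  obtain ⟨S', h, L, hL⟩ := bld F E k V N hN.normal hN.isOpen
  have hnice : L.Nice A M := by
    refine ⟨?_, fun c hc => ?_, fun v hv 𝔓 h𝔓 σ hσ => ?_, ?_⟩
    · obtain ⟨r, hr'⟩ := hN.solv
      have hn' := L.normal
      exact @solv_of_derived (Gal F) _ L.N L.normal r (by rw [hL]; exact hr')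
    · rw [hL]
      exact hN.cc c hc
    · rw [hL]
      exact hN.split v hv 𝔓 h𝔓 hσ
    · rw [hL]
      exact hdis
  have hcyc : ∀ H : Subgroup L.G, IsCyclic H → n ∣ H.index := by
    intro H hH
    obtain ⟨⟨y, hy⟩, hgen⟩ := hH.exists_generator
    obtain ⟨σ, rfl⟩ : ∃ σ : Gal F, L.res σ = y := by
      have := L.normal
      exact QuotientGroup.mk'_surjective L.N y
    have h1 : H.comap L.res = Subgroup.zpowers σ ⊔ L.N := by
      ext τ
      rw [Subgroup.mem_comap]
      constructor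
      · intro hτ
        obtain ⟨j, hj⟩ := Subgroup.mem_zpowers_iff.1 (hgen ⟨L.res τ, hτ⟩)
        have h2 : L.res σ ^ j = L.res τ := congrArg Subtype.val hj
        have h3 : L.res ((σ ^ j)⁻¹ * τ) = 1 := by
          rw [map_mul, map_inv, map_zpow, h2, inv_mul_cancel]
        have h4 : (σ ^ j)⁻¹ * τ ∈ L.N := by
          have := L.normal
          exact (QuotientGroup.eq_one_iff _).1 h3
        have h5 : τ = σ ^ j * ((σ ^ j)⁻¹ * τ) := by group
        rw [h5]
        exact Subgroup.mul_mem_sup (Subgroup.zpow_mem _ (Subgroup.mem_zpowers σ) j) h4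
      · intro hτ
        have hle : Subgroup.zpowers σ ⊔ L.N ≤ H.comap L.res := by
          rw [sup_le_iff]
          constructor
          · rw [Subgroup.zpowers_le]
            exact hy
          · intro x hx
            rw [Subgroup.mem_comap]
            have h3 : L.res x = 1 := by
              have := L.normal
              exact (QuotientGroup.eq_one_iff _).2 hx
            rw [h3]
            exact H.one_mem
        exact hle hτ
    have h2 : (H.comap L.res).index = H.index := by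
      have hsurj : Function.Surjective L.res := by
        have := L.normal
        exact QuotientGroup.mk'_surjective L.N
      exact Subgroup.index_comap_of_surjective H hsurj
    rw [← h2, h1, hL]
    exact hind σ
  have hunip : ∀ R ∈ T, R.Unip L.N := by
    intro R hR v hv 𝔓 h𝔓 σ hσ hc
    refine (hT R hR).2 v hv 𝔓 h𝔓 σ ?_ hc
    refine hloc v ((hT R hR).1 hv) 𝔓 h𝔓 ⟨by rw [← hL]; exact hσ, ?_⟩
    -- inertia is contained in the decomposition group
    intro x y hxy
    have h1 := hc x y hxy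
    rw [pow_one] at h1
    constructor
    · intro hx
      have h2 := 𝔓.add_mem h1 hx
      rwa [sub_add_cancel] at h2
    · intro hy
      have h2 := 𝔓.sub_mem hy h1
      rwa [sub_sub_cancel] at h2
  obtain ⟨a, ha⟩ := ord_exists L₀ ⊤ hc
  have ha' : L.Ord ⊤ Ch.triv a := (enl F E k V C S' h L₀ L hpur).2 a ha
  have hcL : L.Cont ⊤ := by
    obtain ⟨Λ, h1, h2, -⟩ := ha'
    exact ⟨Λ, h1, h2⟩
  have := L.normal
  obtain ⟨s, hs, hs'⟩ := t2s (V := V.enl S' h) C L (fun D hD => hr S' h L hnice D hD (hcyc D hD)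
    (fun R hR v hv 𝔓 h𝔓 => st_LOC F L.N D hD R.K R.r v 𝔓 h𝔓 (hunip R hR v hv 𝔓 h𝔓))) ⊤ hcL
  have h1 : (s : ℤ) = a := ord_unique L ⊤ Ch.triv _ _ hs' ha'
  refine ⟨s, sel_top V C S' h L₀ L s hs, ?_⟩
  rw [h1]
  exact ha

end BKA
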