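import Pool.Agent.Helper64.BKS.Stmts

/-!
# BKS, TRF: the transfer of a homomorphism, restricted to a subgroup
-/

set_option autoImplicit false

namespace BKS

theorem st_TRF : ST_TRF := by
  classical
  constructor
  · intro Γ A _ _ H D _ ϕ φ m hm h1 h2 δ hD
    let := H.fintypeQuotientOfFiniteIndex
    rw [MonoidHom.transfer_eq_prod_quotient_orbitRel_zpowers_quot]
    let P : Γ ⧸ H → Prop := fun x => ∃ d ∈ D, x = (d : Γ ⧸ H)
    let f : Γ ⧸ H → A := fun x => if P x then φ ⟨δ, hD⟩ ^ m else 1
    have hterm : ∀ q : Quotient (MulAction.orbitRel (Subgroup.zpowers δ) (Γ ⧸ H)),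
        ϕ ⟨_, QuotientGroup.out_conj_pow_minimalPeriod_mem H δ q.out⟩ =
          f q.out ^ Function.minimalPeriod (δ • ·) q.out := by
      intro q
      have hmem := QuotientGroup.out_conj_pow_minimalPeriod_mem H δ q.out
      set n := Function.minimalPeriod (δ • ·) q.out with hn
      have hDn : δ ^ n ∈ D := D.pow_mem hD n
      by_cases hP : P q.out
      · obtain ⟨d, hd, hqd⟩ := hP
        have hh : d⁻¹ * q.out.out ∈ H := by
          rw [← QuotientGroup.eq, ← hqd, QuotientGroup.out_eq']
        set h : Γ := d⁻¹ * q.out.out with hhdef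
        have hg : q.out.out = d * h := by rw [hhdef]; group
        have hx : d⁻¹ * δ ^ n * d ∈ D := D.mul_mem (D.mul_mem (D.inv_mem hd) hDn) hd
        have hxH : d⁻¹ * δ ^ n * d ∈ H := by
          have h3 : d⁻¹ * δ ^ n * d = h * (q.out.out⁻¹ * δ ^ n * q.out.out) * h⁻¹ := by
            rw [hg]; group
          rw [h3]
          exact H.mul_mem (H.mul_mem hh hmem) (H.inv_mem hh)
        have h4 : (⟨q.out.out⁻¹ * δ ^ n * q.out.out, hmem⟩ : H) =
            ⟨h, hh⟩⁻¹ * ⟨d⁻¹ * δ ^ n * d, hxH⟩ * ⟨h, hh⟩ := by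
          apply Subtype.ext
          show q.out.out⁻¹ * δ ^ n * q.out.out = h⁻¹ * (d⁻¹ * δ ^ n * d) * h
          rw [hg]; group
        have h5 : (⟨d⁻¹ * δ ^ n * d, hx⟩ : D) = ⟨d, hd⟩⁻¹ * ⟨δ, hD⟩ ^ n * ⟨d, hd⟩ := rfl
        show ϕ (⟨q.out.out⁻¹ * δ ^ n * q.out.out, hmem⟩ : H) = f q.out ^ n
        rw [h4, map_mul, map_mul, map_inv, mul_comm (ϕ ⟨h, hh⟩)⁻¹, inv_mul_cancel_right,
          h1 _ hx hxH, h5, map_mul, map_mul, map_inv, mul_comm (φ ⟨d, hd⟩)⁻¹,
          inv_mul_cancel_right, map_pow, ← pow_mul, mul_comm, pow_mul]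
        have h6 : f q.out = φ ⟨δ, hD⟩ ^ m := if_pos ⟨d, hd, hqd⟩
        rw [h6]
      · have h6 : f q.out = 1 := if_neg hP
        show ϕ (⟨q.out.out⁻¹ * δ ^ n * q.out.out, hmem⟩ : H) = f q.out ^ n
        rw [h6, one_pow]
        refine h2 _ ?_ _ hDn hmem
        intro d hd h hh hgd
        apply hP
        refine ⟨d, hd, ?_⟩
        rw [← QuotientGroup.out_eq' q.out, hgd, QuotientGroup.eq]
        have h7 : (d * h)⁻¹ * d = h⁻¹ := by group
        rw [h7]
        exact H.inv_mem hh
    have hP : ∀ e ∈ D, ∀ x : Γ ⧸ H, P (e • x) ↔ P x := by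
      intro e he x
      constructor
      · rintro ⟨d, hd, h6⟩
        refine ⟨e⁻¹ * d, D.mul_mem (D.inv_mem he) hd, ?_⟩
        rw [← inv_smul_smul e x, h6]
        rfl
      · rintro ⟨d, hd, h6⟩
        refine ⟨e * d, D.mul_mem he hd, ?_⟩
        rw [h6]
        rfl
    have hprod : ∏ x, f x = ∏ q : Quotient (MulAction.orbitRel (Subgroup.zpowers δ) (Γ ⧸ H)),
        f q.out ^ Function.minimalPeriod (δ • ·) q.out := by
      calc
        ∏ x : Γ ⧸ H, f x = _ := ((Subgroup.quotientEquivSigmaZMod H δ).symm.prod_comp _).symm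
        _ = _ := Finset.prod_sigma _ _ _
        _ = _ := by
          refine Fintype.prod_congr _ _ fun q => ?_
          have h3 : ∀ k : ZMod (Function.minimalPeriod (δ • ·) q.out),
              f ((Subgroup.quotientEquivSigmaZMod H δ).symm ⟨q, k⟩) = f q.out := by
            intro k
            rw [Subgroup.quotientEquivSigmaZMod_symm_apply]
            have h4 : δ ^ (ZMod.cast k : ℤ) ∈ D := D.zpow_mem hD _
            have h5 := hP _ h4 q.out
            show (if _ then _ else _) = if _ then _ else _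
            rw [if_congr h5 rfl rfl]
          rw [Finset.prod_congr rfl fun k _ => h3 k, Finset.prod_const, Finset.card_univ,
            ZMod.card]
    have hcard : (Finset.univ.filter P).card = H.relIndex D := by
      rw [← Fintype.card_subtype, ← Nat.card_eq_fintype_card]
      symm
      refine Nat.card_congr (Equiv.ofBijective
        (fun y : D ⧸ H.subgroupOf D => (⟨Quotient.liftOn' y (fun d : D => ((d : Γ) : Γ ⧸ H))
          (fun a b hab => ?_), ?_⟩ : {x // P x})) ⟨?_, ?_⟩)
      · rw [QuotientGroup.leftRel_apply] at hab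
        exact QuotientGroup.eq.2 (Subgroup.mem_subgroupOf.1 hab)
      · induction y using QuotientGroup.induction_on with
        | H d => exact ⟨d, d.2, rfl⟩
      · intro y y' hyy
        induction y using QuotientGroup.induction_on with
        | H d =>
          induction y' using QuotientGroup.induction_on with
          | H d' =>
            have h3 : (((d : D) : Γ) : Γ ⧸ H) = ((d' : Γ) : Γ ⧸ H) := congrArg Subtype.val hyy
            rw [QuotientGroup.eq] at h3
            exact QuotientGroup.eq.2 (Subgroup.mem_subgroupOf.2 h3)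
      · rintro ⟨x, d, hd, hx⟩
        refine ⟨((⟨d, hd⟩ : D) : D ⧸ H.subgroupOf D), Subtype.ext hx.symm⟩
    rw [Finset.prod_congr rfl fun q _ => hterm q, ← hprod]
    show ∏ x, (if P x then φ ⟨δ, hD⟩ ^ m else 1) = _
    rw [Finset.prod_ite, Finset.prod_const_one, mul_one, Finset.prod_const, hcard, ← pow_mul]
    exact hm _
  · intro Γ A _ _ H D _ ϕ h δ hD
    let := H.fintypeQuotientOfFiniteIndex
    rw [MonoidHom.transfer_eq_prod_quotient_orbitRel_zpowers_quot]
    exact Finset.prod_eq_one fun q _ => h _ _ (D.pow_mem hD _) _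

end BKS
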